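import Mathlib
import Pool.Agent.MP_5f86f1_lc.Yes.Final

namespace Pool.Agent.Results.MP_5f86f1_lc.CovMeagre

/-- If the dominating number is at most the covering number of the meagre ideal (every family of
meagre sets covering the Cantor space is at least as large as some dominating family), then there
is a Scheepers set of reals whose square is not Menger. -/
theorem result :
    (∀ M : Set (Set (ℕ → Bool)), (∀ A ∈ M, IsMeagre A) → ⋃₀ M = Set.univ →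
        ∃ D : Set (ℕ → ℕ),
          (∀ f : ℕ → ℕ, ∃ g ∈ D, ∀ᶠ n in Filter.atTop, f n ≤ g n) ∧
          Cardinal.mk D ≤ Cardinal.mk M) →
    ∃ X : Set ℝ,
      (∀ U : ℕ → Set (Set ℝ), (∀ n, (∀ u ∈ U n, IsOpen u) ∧ X ⊆ ⋃₀ U n) →
        ∃ F : ℕ → Set (Set ℝ), (∀ n, F n ⊆ U n ∧ (F n).Finite) ∧
          ∀ G : Finset ℝ, (↑G : Set ℝ) ⊆ X → ∃ n, (↑G : Set ℝ) ⊆ ⋃₀ F n) ∧
      ¬ (∀ U : ℕ → Set (Set (ℝ × ℝ)),
          (∀ n, (∀ u ∈ U n, IsOpen u) ∧ X ×ˢ X ⊆ ⋃₀ U n) →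
          ∃ F : ℕ → Set (Set (ℝ × ℝ)), (∀ n, F n ⊆ U n ∧ (F n).Finite) ∧
            X ×ˢ X ⊆ ⋃ n, ⋃₀ F n) :=
  fun H => Pool.Agent.MP_5f86f1_lc.Yes.of_cov H

end Pool.Agent.Results.MP_5f86f1_lc.CovMeagre
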