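import Mathlib
import Pool.Agent.MP_5f86f1_lc.Final

namespace Pool.Agent.Results.MP_5f86f1_lc.LaverModel

open Pool.Agent.ZFC77 Pool.Agent.MP_5f86f1_lc

/-- There is a model of ZFC in which `d ≤ r` and every Scheepers set of reals has a Menger
square. -/
theorem result : ∃ (M : Type 1) (E : M → M → Prop), ZFC E ∧ ∃ w, IOmega E w ∧
    IDleR E w ∧ ∃ l, IDlo E w l ∧ ∀ X, (∀ x, E x X → IReal E w l x) → IScheepers E w l X →
      IMenger2 E w l X := exists_zfc_model

end Pool.Agent.Results.MP_5f86f1_lc.LaverModel
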