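import Mathlib
import Pool.Agent.MP_5f86f1_lc.Yes.Final

namespace Pool.Agent.Results.MP_5f86f1_lc.SingularD

/-- If the dominating number `d` (the least size of a dominating family) is a singular cardinal,
then there is a Scheepers set of reals whose square is not Menger. -/
theorem result (d : Cardinal.{0})
    (hd : IsLeast {c : Cardinal.{0} | ∃ D : Set (ℕ → ℕ),
      (∀ f : ℕ → ℕ, ∃ g ∈ D, ∀ᶠ n in Filter.atTop, f n ≤ g n) ∧ Cardinal.mk D = c} d)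
    (hs : d.IsSingular) :
    ∃ X : Set ℝ,
      (∀ U : ℕ → Set (Set ℝ), (∀ n, (∀ u ∈ U n, IsOpen u) ∧ X ⊆ ⋃₀ U n) →
        ∃ F : ℕ → Set (Set ℝ), (∀ n, F n ⊆ U n ∧ (F n).Finite) ∧
          ∀ G : Finset ℝ, (↑G : Set ℝ) ⊆ X → ∃ n, (↑G : Set ℝ) ⊆ ⋃₀ F n) ∧
      ¬ (∀ U : ℕ → Set (Set (ℝ × ℝ)),
          (∀ n, (∀ u ∈ U n, IsOpen u) ∧ X ×ˢ X ⊆ ⋃₀ U n) →
          ∃ F : ℕ → Set (Set (ℝ × ℝ)), (∀ n, F n ⊆ U n ∧ (F n).Finite) ∧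
            X ×ˢ X ⊆ ⋃ n, ⋃₀ F n) :=
  Pool.Agent.MP_5f86f1_lc.Yes.of_singular hd hs

end Pool.Agent.Results.MP_5f86f1_lc.SingularD
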